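import Mathlib
import Pool.Agent.X238.Osr.Bridge

set_option autoImplicit false

/-!
# The positive fragment of the theory of one-step rewriting is undecidable

The reduction is from the halting problem of a fixed machine with counters. The ground terms are
histories: a node `nd a u z` consists of a state `a`, the registers `u` (numerals `s^n(0)`; the
numerals of neighbouring nodes have different colours) and the rest `z` of the history.

Negation is replaced by named constants and cycles of the rewrite graph:

* a chain of constants `ch 0, ..., ch 5` is named by universal quantifiers: `∀ v` [there is a walk of
  length `j + 1` from `v`, or `v` is one of the constants named before, or ...];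
* every pattern that is not allowed in a history (a wrong symbol, a wrong shift between two numerals
  at a finite distance, a state that is not the successor) is rewritten to a constant on a cycle of
  length `5`, so that `the history is not well-formed` is a positive existential formula;
* an error between two numerals of neighbouring nodes is detected by a commuting square of two
  cuts (each of them replaces a part of a numeral by a constant on a cycle of a fixed length) and
  by a rule that is not left-linear;
* the sentence says that for every term `x`: `x` is not well-formed, or the first number of `x` is not
  `n`, or `x` contains an error. It is true iff the machine does not halt on `n`.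
-/

namespace Pool.Agent.Results.MP_342291_lc.PositiveFragmentUndecidable

open Pool.Agent.X238.Osr

/-- The numbering of the formulas is injective. -/
theorem code_injective : Function.Injective PF.code := by
  intro a
  induction a with
  | eq i j => intro b h; cases b <;> simp_all [PF.code, Nat.pair_eq_pair]
  | rel i j => intro b h; cases b <;> simp_all [PF.code, Nat.pair_eq_pair]
  | and a b iha ihb =>
    intro c h
    cases c <;> simp only [PF.code, Nat.pair_eq_pair, PF.and.injEq, reduceCtorEq,
      Nat.reduceEqDiff, false_and, true_and] at h ⊢
    exact ⟨iha h.1, ihb h.2⟩
  | or a b iha ihb =>
    intro c h
    cases c <;> simp only [PF.code, Nat.pair_eq_pair, PF.or.injEq, reduceCtorEq,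
      Nat.reduceEqDiff, false_and, true_and] at h ⊢
    exact ⟨iha h.1, ihb h.2⟩
  | all i a iha =>
    intro c h
    cases c <;> simp only [PF.code, Nat.pair_eq_pair, PF.all.injEq, reduceCtorEq,
      Nat.reduceEqDiff, false_and, true_and] at h ⊢
    exact ⟨h.1, iha h.2⟩
  | ex i a iha =>
    intro c h
    cases c <;> simp only [PF.code, Nat.pair_eq_pair, PF.ex.injEq, reduceCtorEq,
      Nat.reduceEqDiff, false_and, true_and] at h ⊢
    exact ⟨h.1, iha h.2⟩

/-- There are a finite signature `F` with a constant and a finite rewrite system `R` over it such
that no algorithm decides, given a positive sentence, whether it holds in the structure of ground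
terms with the relation of one-step rewriting by `R`. -/
theorem result : ∃ (F : Type) (_ : Finite F) (ar : F → ℕ) (_ : ∃ c, ar c = 0)
    (R : Set (Tm F ar ℕ × Tm F ar ℕ)), R.Finite ∧ (∀ p ∈ R, IsRule p) ∧
    ¬ ∃ f : ℕ → Bool, Computable f ∧ ∀ φ : PF, φ.fv = ∅ →
      (f φ.code = true ↔ ∀ e : ℕ → Gr F ar, φ.holds (Rew R) e) :=
  main

end Pool.Agent.Results.MP_342291_lc.PositiveFragmentUndecidable
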